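import Mathlib
import Pool.Agent.Helper83.DetLBDefs
import Pool.Agent.Helper83.DetLBProof

open Finset Matrix
open Pool.Agent.Helper83.DetLB

namespace Pool.Agent.Results.MP_c6e1d2_co.DetLB

/-- The determinant lower bound is at most an absolute constant times the hereditary partial
vector discrepancy. -/
theorem result : ∀ (m n : ℕ) (A : Matrix (Fin m) (Fin n) ℝ), detLB A ≤ 17 * herpvdisc A :=
  Pool.Agent.Helper83.DetLB.main

end Pool.Agent.Results.MP_c6e1d2_co.DetLB
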